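import Pool.Agent.E8helper37.RP.Main
import Pool.Agent.E8helper37.RX.Main
import Pool.Agent.W254.PA.LogP

/-!
# `p`-adic strong four exponentials: arithmetic expressions of all shapes

Let `𝓛` be the space of the linear combinations, with algebraic coefficients, of `1` and of values of
the Iwasawa logarithm at algebraic numbers. The conjecture says that a singular `2 × 2` matrix
`(x i * y j)` with rows and columns linearly independent over the algebraic numbers has an entry
outside `𝓛`.

An arithmetic expression is a binary tree with labelled leaves and with nodes labelled by the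
operations `+`, `*`, `/`. There are `s ^ (n + 1) * 3 ^ n * C_n` expressions with `n + 1` leaves and `s` leaf
labels (`C_n` the Catalan numbers). The leaf labels are elements of the algebraic closure of `ℚ_p`,
one of them transcendental, such that no expression has the value zero; for example all labels are
values at a transcendental `θ` of nonzero polynomials with natural coefficients (D). Let `C` be the
value of an expression. For all `N`, `D`, `ε` and all large `n`, uniformly in everything else: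

(A) for all `a, b, c, d` with `a d ≠ b c` and all spaces `V` of dimension at most `N` over the
algebraic numbers, `(a C + b) / (c C + d)` is in `𝓛 + V` for at most an `ε`-fraction of the
expressions with `n` leaves;
(B) for all polynomials `F` over the algebraic closure of `ℚ_p`, `1 ≤ deg F ≤ D`, the number `F(C)` is
in `𝓛 + V` for at most an `ε`-fraction of the expressions with the operations `+`, `*`;
(C) for all `x ≠ 0` and all rows `y`, one coordinate of which is a Möbius transform of `C`, the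
singular matrix `(x i * y j)` is a counterexample to the conjecture for at most an `ε`-fraction of
the expressions.

The proof is that of the complex case (`MP_f55379_nt/RandomExpressionsH37`,
`MP_725b61_nt/AllExpressionsH37`), with positive real values replaced by the set of the values of
expressions; it uses only the hyperplane property of `𝓛`, and the `p`-adic hyperplane theorem of
Waldschmidt and Roy of the starting files (`Pool.Agent.W254.PA`).
-/

set_option autoImplicit false

namespace Pool.Agent.Results.MP_dd0d16_nt.AllShapesPadicH37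

open Module
open Pool.Agent.E8helper37.RX (Expr ind ind_mono card_eq card_all)
open Pool.Agent.E8helper37.RP

/-- `L` is the Iwasawa `p`-adic logarithm on the algebraic closure of `ℚ_p`. -/
def IsIwasawaLog (p : ℕ) [Fact p.Prime] (L : PadicAlgCl p → PadicAlgCl p) : Prop :=
  (∀ x y : PadicAlgCl p, x ≠ 0 → y ≠ 0 → L (x * y) = L x + L y) ∧
  L ((p : ℕ) : PadicAlgCl p) = 0 ∧
  ∀ z : PadicAlgCl p, ‖z‖ < 1 →
    HasSum (fun n : ℕ => (-1 : PadicAlgCl p) ^ n * z ^ (n + 1) / ((n : PadicAlgCl p) + 1))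
      (L (1 + z))

/-- The algebraic numbers in the algebraic closure of `ℚ_p`. -/
noncomputable abbrev Qb (p : ℕ) [Fact p.Prime] : IntermediateField ℚ (PadicAlgCl p) :=
  algebraicClosure ℚ (PadicAlgCl p)

/-- The linear combinations with algebraic coefficients of `1` and of the values of `L` at nonzero
algebraic numbers. -/
noncomputable def LogForms (p : ℕ) [Fact p.Prime] (L : PadicAlgCl p → PadicAlgCl p) :
    Submodule (Qb p) (PadicAlgCl p) :=
  Submodule.span (Qb p) ({1} ∪ {z | ∃ α : PadicAlgCl p, α ≠ 0 ∧ IsAlgebraic ℚ α ∧ z = L α})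

/-- `M` is a counterexample to the `p`-adic strong four exponentials conjecture. -/
def Counterexample (p : ℕ) [Fact p.Prime] (L : PadicAlgCl p → PadicAlgCl p)
    (M : Matrix (Fin 2) (Fin 2) (PadicAlgCl p)) : Prop :=
  (∀ i j, M i j ∈ LogForms p L) ∧
  LinearIndependent (Qb p) (fun i : Fin 2 => fun j : Fin 2 => M i j) ∧
  LinearIndependent (Qb p) (fun j : Fin 2 => fun i : Fin 2 => M i j) ∧
  M.det = 0

/-- The operations `+`, `*`, `/`. -/
noncomputable def arith (p : ℕ) [Fact p.Prime] : Fin 3 → PadicAlgCl p → PadicAlgCl p → PadicAlgCl p :=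
  ![fun x y => x + y, fun x y => x * y, fun x y => x / y]

/-- The operations `+`, `*`. -/
noncomputable def semi (p : ℕ) [Fact p.Prime] : Fin 2 → PadicAlgCl p → PadicAlgCl p → PadicAlgCl p :=
  ![fun x y => x + y, fun x y => x * y]

theorem arith_ari (p : ℕ) [Fact p.Prime] : Ari (arith p) := by
  intro o
  fin_cases o
  · exact Or.inl rfl
  · exact Or.inr (Or.inl rfl)
  · exact Or.inr (Or.inr rfl)

theorem semi_semi (p : ℕ) [Fact p.Prime] : Semi (semi p) := by
  intro o
  fin_cases o
  · exact Or.inl rfl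
  · exact Or.inr rfl

theorem hyp {p : ℕ} [Fact p.Prime] {L : PadicAlgCl p → PadicAlgCl p} (hL : IsIwasawaLog p L) :
    Pool.Agent.W254.PA.Hyp (LogForms p L) := by
  have hL' : Pool.Agent.W245.PB.IsIwasawaLog p L := ⟨hL.1, hL.2.1, hL.2.2⟩
  exact Pool.Agent.W254.PA.hyp_padic hL'

section

variable {p : ℕ} [Fact p.Prime] {L : PadicAlgCl p → PadicAlgCl p} (hL : IsIwasawaLog p L)
  {σ : Type} [Fintype σ] {v : σ → PadicAlgCl p} (hs : ∃ s, Transcendental ℚ (v s))
include hL hs

theorem partA (hv : ∀ t : Expr σ (Fin 3), t.value (arith p) v ≠ 0) (N : ℕ) {ε : ℝ} (hε : 0 < ε) :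
    ∃ n₀ : ℕ, ∀ n ≥ n₀, ∀ a b c d : PadicAlgCl p, a * d ≠ b * c →
      ∀ V : Submodule (Qb p) (PadicAlgCl p), FiniteDimensional (Qb p) V → finrank (Qb p) V ≤ N →
      (Nat.card {t : Expr σ (Fin 3) // t.leaves = n ∧
        (a * t.value (arith p) v + b) / (c * t.value (arith p) v + d) ∈ LogForms p L ⊔ V} : ℝ) ≤
        ε * Nat.card {t : Expr σ (Fin 3) // t.leaves = n} := by
  classical
  obtain ⟨s, hs⟩ := hs
  obtain ⟨n₀, hn₀⟩ := main_mob (hyp hL) (arith_ari p) (v := v) (fun ⟨t, ht⟩ => hv t ht)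
    (p := 0) (q := 1) rfl rfl (by decide) hs N hε
  refine ⟨n₀ + 1, fun n hn a b c d hdet V hV hVN => ?_⟩
  obtain ⟨m, rfl⟩ : ∃ m, n = m + 1 := ⟨n - 1, by omega⟩
  rw [card_eq m (fun t : Expr σ (Fin 3) => (a * t.value (arith p) v + b) /
        (c * t.value (arith p) v + d) ∈ LogForms p L ⊔ V), card_all]
  exact hn₀ m (by omega) a b c d hdet V hV hVN

theorem partB (hv : ∀ t : Expr σ (Fin 2), t.value (semi p) v ≠ 0) (N D : ℕ) {ε : ℝ} (hε : 0 < ε) :
    ∃ n₀ : ℕ, ∀ n ≥ n₀, ∀ F : Polynomial (PadicAlgCl p), 1 ≤ F.natDegree → F.natDegree ≤ D →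
      ∀ V : Submodule (Qb p) (PadicAlgCl p), FiniteDimensional (Qb p) V → finrank (Qb p) V ≤ N →
      (Nat.card {t : Expr σ (Fin 2) // t.leaves = n ∧
        F.eval (t.value (semi p) v) ∈ LogForms p L ⊔ V} : ℝ) ≤
        ε * Nat.card {t : Expr σ (Fin 2) // t.leaves = n} := by
  classical
  obtain ⟨s, hs⟩ := hs
  obtain ⟨n₀, hn₀⟩ := main_poly (hyp hL) (semi_semi p) (v := v) (fun ⟨t, ht⟩ => hv t ht)
    (p := 0) (q := 1) rfl rfl (by decide) hs N D hε
  refine ⟨n₀ + 1, fun n hn F h1 hD V hV hVN => ?_⟩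
  obtain ⟨m, rfl⟩ : ∃ m, n = m + 1 := ⟨n - 1, by omega⟩
  rw [card_eq m (fun t : Expr σ (Fin 2) => F.eval (t.value (semi p) v) ∈ LogForms p L ⊔ V), card_all]
  exact hn₀ m (by omega) F h1 hD V hV hVN

theorem partC (hv : ∀ t : Expr σ (Fin 3), t.value (arith p) v ≠ 0) {ε : ℝ} (hε : 0 < ε) :
    ∃ n₀ : ℕ, ∀ n ≥ n₀, ∀ a b c d : PadicAlgCl p, a * d ≠ b * c →
      ∀ (x : Fin 2 → PadicAlgCl p) (y : Expr σ (Fin 3) → Fin 2 → PadicAlgCl p) (j : Fin 2), x ≠ 0 →
      (∀ t, y t j = (a * t.value (arith p) v + b) / (c * t.value (arith p) v + d)) →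
      (Nat.card {t : Expr σ (Fin 3) // t.leaves = n ∧
        Counterexample p L (Matrix.of fun i j => x i * y t j)} : ℝ) ≤
        ε * Nat.card {t : Expr σ (Fin 3) // t.leaves = n} := by
  classical
  obtain ⟨n₀, hn₀⟩ := partA hL hs hv 0 hε
  refine ⟨n₀ + 1, fun n hn a b c d hdet x y j hx hy => ?_⟩
  obtain ⟨r, hr⟩ : ∃ r, x r ≠ 0 := by
    by_contra h
    push Not at h
    exact hx (funext h)
  have h1 := hn₀ n (by omega) (x r * a) (x r * b) c d (by
    intro h
    apply hdet
    apply mul_left_cancel₀ hr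
    linear_combination h) ⊥ inferInstance (by simp)
  obtain ⟨m, rfl⟩ : ∃ m, n = m + 1 := ⟨n - 1, by omega⟩
  rw [card_eq m (fun t : Expr σ (Fin 3) => (x r * a * t.value (arith p) v + x r * b) /
        (c * t.value (arith p) v + d) ∈ LogForms p L ⊔ ⊥)] at h1
  rw [card_eq m (fun t : Expr σ (Fin 3) => Counterexample p L (Matrix.of fun i j => x i * y t j))]
  refine le_trans (Finset.sum_le_sum fun t _ => ind_mono fun h => ?_) h1
  have h2 := h.1 r j
  rw [Matrix.of_apply, hy] at h2
  rw [sup_bot_eq]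
  convert h2 using 1
  ring

end

/-- sums of nonzero polynomials with natural coefficients are nonzero -/
theorem add_ne {A B : Polynomial ℕ} (hA : A ≠ 0) : A + B ≠ 0 := by
  intro h
  apply hA
  ext n
  have h1 := congrArg (fun P => Polynomial.coeff P n) h
  simp only [Polynomial.coeff_add, Polynomial.coeff_zero] at h1
  rw [Polynomial.coeff_zero]
  omega

theorem aeval_ne {p : ℕ} [Fact p.Prime] {θ : PadicAlgCl p} (hθ : Transcendental ℚ θ)
    {A : Polynomial ℕ} (hA : A ≠ 0) : A.eval₂ (Nat.castRingHom (PadicAlgCl p)) θ ≠ 0 := by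
  intro h
  apply hθ
  refine ⟨A.map (Nat.castRingHom ℚ), ?_, ?_⟩
  · intro h1
    apply hA
    exact Polynomial.map_injective _ Nat.cast_injective (by rw [h1, Polynomial.map_zero])
  · rw [Polynomial.aeval_def, Polynomial.eval₂_map]
    have : (algebraMap ℚ (PadicAlgCl p)).comp (Nat.castRingHom ℚ) = Nat.castRingHom (PadicAlgCl p) :=
      RingHom.ext fun n => by simp
    rw [this, h]

theorem partD {p : ℕ} [Fact p.Prime] {θ : PadicAlgCl p} (hθ : Transcendental ℚ θ) {σ : Type}
    (P : σ → Polynomial ℕ) (hP : ∀ s, P s ≠ 0) (t : Expr σ (Fin 3)) :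
    t.value (arith p) (fun s => (P s).eval₂ (Nat.castRingHom (PadicAlgCl p)) θ) ≠ 0 := by
  have key : ∃ A B : Polynomial ℕ, A ≠ 0 ∧ B ≠ 0 ∧
      t.value (arith p) (fun s => (P s).eval₂ (Nat.castRingHom (PadicAlgCl p)) θ) =
        A.eval₂ (Nat.castRingHom (PadicAlgCl p)) θ / B.eval₂ (Nat.castRingHom (PadicAlgCl p)) θ := by
    induction t with
    | leaf s => exact ⟨P s, 1, hP s, one_ne_zero, by
        rw [Polynomial.eval₂_one, div_one]; rfl⟩
    | node o l r hl hr =>
      obtain ⟨A, B, hA, hB, h1⟩ := hl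
      obtain ⟨A', B', hA', hB', h2⟩ := hr
      have hB0 := aeval_ne hθ hB
      have hB0' := aeval_ne hθ hB'
      have hA0' := aeval_ne hθ hA'
      simp only [Expr.value, h1, h2]
      fin_cases o
      · refine ⟨A * B' + A' * B, B * B', add_ne (mul_ne_zero hA hB'), mul_ne_zero hB hB', ?_⟩
        rw [Polynomial.eval₂_add, Polynomial.eval₂_mul, Polynomial.eval₂_mul, Polynomial.eval₂_mul]
        simp only [arith, Fin.zero_eta, Matrix.cons_val_zero]
        field_simp
      · refine ⟨A * A', B * B', mul_ne_zero hA hA', mul_ne_zero hB hB', ?_⟩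
        rw [Polynomial.eval₂_mul, Polynomial.eval₂_mul]
        simp only [arith, Fin.mk_one, Matrix.cons_val_one, Matrix.cons_val_zero]
        field_simp
      · refine ⟨A * B', B * A', mul_ne_zero hA hB', mul_ne_zero hB hA', ?_⟩
        rw [Polynomial.eval₂_mul, Polynomial.eval₂_mul]
        simp only [arith, Fin.reduceFinMk, Matrix.cons_val]
        field_simp
  obtain ⟨A, B, hA, hB, h1⟩ := key
  rw [h1]
  exact div_ne_zero (aeval_ne hθ hA) (aeval_ne hθ hB)

/-- **Main result.** -/
theorem result (p : ℕ) [Fact p.Prime] :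
    (∀ L : PadicAlgCl p → PadicAlgCl p, IsIwasawaLog p L →
      ∀ (σ : Type) [Fintype σ] (v : σ → PadicAlgCl p), (∃ s, Transcendental ℚ (v s)) →
      ∀ (N D : ℕ) (ε : ℝ), 0 < ε →
      ((∀ t : Expr σ (Fin 3), t.value (arith p) v ≠ 0) → ∃ n₀ : ℕ, ∀ n ≥ n₀,
        -- (A)
        (∀ a b c d : PadicAlgCl p, a * d ≠ b * c →
          ∀ V : Submodule (Qb p) (PadicAlgCl p), FiniteDimensional (Qb p) V → finrank (Qb p) V ≤ N →
          (Nat.card {t : Expr σ (Fin 3) // t.leaves = n ∧
            (a * t.value (arith p) v + b) / (c * t.value (arith p) v + d) ∈ LogForms p L ⊔ V} : ℝ) ≤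
            ε * Nat.card {t : Expr σ (Fin 3) // t.leaves = n}) ∧
        -- (C)
        (∀ a b c d : PadicAlgCl p, a * d ≠ b * c →
          ∀ (x : Fin 2 → PadicAlgCl p) (y : Expr σ (Fin 3) → Fin 2 → PadicAlgCl p) (j : Fin 2),
          x ≠ 0 → (∀ t, y t j = (a * t.value (arith p) v + b) / (c * t.value (arith p) v + d)) →
          (Nat.card {t : Expr σ (Fin 3) // t.leaves = n ∧
            Counterexample p L (Matrix.of fun i j => x i * y t j)} : ℝ) ≤
            ε * Nat.card {t : Expr σ (Fin 3) // t.leaves = n})) ∧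
      -- (B)
      ((∀ t : Expr σ (Fin 2), t.value (semi p) v ≠ 0) → ∃ n₀ : ℕ, ∀ n ≥ n₀,
        ∀ F : Polynomial (PadicAlgCl p), 1 ≤ F.natDegree → F.natDegree ≤ D →
          ∀ V : Submodule (Qb p) (PadicAlgCl p), FiniteDimensional (Qb p) V → finrank (Qb p) V ≤ N →
          (Nat.card {t : Expr σ (Fin 2) // t.leaves = n ∧
            F.eval (t.value (semi p) v) ∈ LogForms p L ⊔ V} : ℝ) ≤
            ε * Nat.card {t : Expr σ (Fin 2) // t.leaves = n})) ∧
    -- (D)
    ∀ θ : PadicAlgCl p, Transcendental ℚ θ → ∀ (σ : Type) (P : σ → Polynomial ℕ),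
      (∀ s, P s ≠ 0) → ∀ t : Expr σ (Fin 3),
        t.value (arith p) (fun s => (P s).eval₂ (Nat.castRingHom (PadicAlgCl p)) θ) ≠ 0 := by
  refine ⟨fun L hL σ _ v hs N D ε hε => ⟨fun hv => ?_, fun hv => ?_⟩,
    fun θ hθ σ P hP t => partD hθ P hP t⟩
  · obtain ⟨n₁, hn₁⟩ := partA hL hs hv N hε
    obtain ⟨n₂, hn₂⟩ := partC hL hs hv hε
    refine ⟨max n₁ n₂, fun n hn => ⟨?_, ?_⟩⟩
    · intro a b c d hdet V hV hVN
      exact hn₁ n (le_trans (le_max_left _ _) hn) a b c d hdet V hV hVN
    · intro a b c d hdet x y j hx hy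
      exact hn₂ n (le_trans (le_max_right _ _) hn) a b c d hdet x y j hx hy
  · exact partB hL hs hv N D hε

end Pool.Agent.Results.MP_dd0d16_nt.AllShapesPadicH37
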