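import Pool.Agent.E8helper92.PG.Near

/-!
# `p`-adic strong four exponentials: entries with many conjugates

Let `𝓛` be the space of the linear combinations, with algebraic coefficients, of `1` and of values of
the Iwasawa logarithm at algebraic numbers. The conjecture says that `a d ≠ b c` for all `a, b, c, d`
in `𝓛` such that `(a, b)`, `(c, d)` and also `(a, c)`, `(b, d)` are linearly independent over the
algebraic numbers. We prove it in new cases by means of the Galois group of the algebraic closure of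
`ℚ_p` over a field `K` which contains the quotient `b / a`.

The simplest case: if `α, γ` in `K` are algebraic numbers with linearly independent logarithms, and if
`β ≡ 1 mod p ^ 3` is an algebraic number of degree at least `3` over `K`, then
`log α * d ≠ log γ * log β` for all `d` in `𝓛`. The degree condition cannot be dropped without
proving the conjecture for numbers in `ℚ_p`.

The proofs use the `p`-adic hyperplane theorem of the starting files `Pool.Agent.W254.PA` and
Brumer's theorem (`Pool.Agent.W245.PB`).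
-/

set_option autoImplicit false

namespace Pool.Agent.Results.MP_dd0d16_nt.ConjugateLogsH92

/-- `L` is the Iwasawa `p`-adic logarithm on the algebraic closure of `ℚ_p`. -/
def IsIwasawaLog (p : ℕ) [Fact p.Prime] (L : PadicAlgCl p → PadicAlgCl p) : Prop :=
  (∀ x y : PadicAlgCl p, x ≠ 0 → y ≠ 0 → L (x * y) = L x + L y) ∧
  L ((p : ℕ) : PadicAlgCl p) = 0 ∧
  ∀ z : PadicAlgCl p, ‖z‖ < 1 →
    HasSum (fun n : ℕ => (-1 : PadicAlgCl p) ^ n * z ^ (n + 1) / ((n : PadicAlgCl p) + 1))
      (L (1 + z))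

/-- The algebraic numbers in the algebraic closure of `ℚ_p`. -/
noncomputable abbrev Qb (p : ℕ) [Fact p.Prime] : IntermediateField ℚ (PadicAlgCl p) :=
  algebraicClosure ℚ (PadicAlgCl p)

/-- The linear combinations with algebraic coefficients of `1` and of the values of `L` at nonzero
algebraic numbers. -/
noncomputable def LogForms (p : ℕ) [Fact p.Prime] (L : PadicAlgCl p → PadicAlgCl p) :
    Submodule (Qb p) (PadicAlgCl p) :=
  Submodule.span (Qb p) ({1} ∪ {z | ∃ α : PadicAlgCl p, α ≠ 0 ∧ IsAlgebraic ℚ α ∧ z = L α})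

/-- **Main result.** Let `K` be any field between `ℚ_p` and its algebraic closure.

1. If `a, b, c, d` are in `𝓛`, `a, b` are linearly independent over the algebraic numbers, `b / a` is
in `K`, and among the conjugates over `K` of `a` and of `c` there are three which are linearly
independent over the algebraic numbers, then `a d ≠ b c`.

2. Let `α, β, γ` be nonzero algebraic numbers. If `log α, log γ` are in `K` and linearly independent
over `ℚ`, and if `(log β - q log α) ^ 2` is not in `K` for all rational `q` (for instance if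
`log β` has degree at least `3` over `K`), then `log α * d ≠ log γ * log β` for all `d` in `𝓛`.

3. This is so if `α, γ` are in `K`, `log α, log γ` are linearly independent over `ℚ`, and
`β ≡ 1 mod p ^ 3` has degree at least `3` over `K`. -/
theorem result (p : ℕ) [Fact p.Prime] (L : PadicAlgCl p → PadicAlgCl p) (hL : IsIwasawaLog p L)
    (K : IntermediateField ℚ_[p] (PadicAlgCl p)) :
    (∀ a ∈ LogForms p L, ∀ b ∈ LogForms p L, ∀ c ∈ LogForms p L, ∀ d ∈ LogForms p L,
      LinearIndependent (Qb p) ![a, b] → b / a ∈ K →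
      ∀ z : Fin 3 → PadicAlgCl p,
        (∀ i, ∃ σ : PadicAlgCl p ≃ₐ[K] PadicAlgCl p, z i = σ a ∨ z i = σ c) →
        LinearIndependent (Qb p) z → a * d ≠ b * c) ∧
    (∀ α γ β : PadicAlgCl p, α ≠ 0 → γ ≠ 0 → β ≠ 0 →
      IsAlgebraic ℚ α → IsAlgebraic ℚ γ → IsAlgebraic ℚ β →
      L α ∈ K → L γ ∈ K → LinearIndependent ℚ ![L α, L γ] →
      (∀ q : ℚ, (L β - (q : PadicAlgCl p) * L α) ^ 2 ∉ K) →
      ∀ d ∈ LogForms p L, L α * d ≠ L γ * L β) ∧
    (∀ α γ β : PadicAlgCl p, α ≠ 0 → γ ≠ 0 → β ≠ 0 →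
      IsAlgebraic ℚ α → IsAlgebraic ℚ γ → IsAlgebraic ℚ β →
      α ∈ K → γ ∈ K → LinearIndependent ℚ ![L α, L γ] →
      ‖β - 1‖ * (p : ℝ) ^ 3 ≤ 1 → 3 ≤ (minpoly K β).natDegree →
      ∀ d ∈ LogForms p L, L α * d ≠ L γ * L β) := by
  have hL' : Pool.Agent.W245.PB.IsIwasawaLog p L := ⟨hL.1, hL.2.1, hL.2.2⟩
  have hV : Pool.Agent.W254.PA.Hyp (LogForms p L) := Pool.Agent.W254.PA.hyp_padic hL'
  have hσ : ∀ σ : PadicAlgCl p ≃ₐ[ℚ_[p]] PadicAlgCl p, ∀ v ∈ LogForms p L,
      σ v ∈ LogForms p L := fun σ v hv => Pool.Agent.E8helper92.PG.logForms_galois hL' σ hv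
  refine ⟨?_, ?_, ?_⟩
  · intro a ha b hb c hc d hd hab hK z hz hli
    exact Pool.Agent.E8helper92.PG.exclK hV hσ ha hb hc hd hab K hK z hz hli
  · intro α γ β hα0 hγ0 hβ0 hα hγ hβ hαK hγK hαγ hβK d hd
    exact Pool.Agent.E8helper92.PG.excl_logK hL' hV K hα0 hγ0 hβ0 hα hγ hβ hαK hγK hαγ hβK hd
  · intro α γ β hα0 hγ0 hβ0 hα hγ hβ hαK hγK hαγ hnear hdeg d hd
    have h1 := Pool.Agent.E8helper92.PG.log_mem_K hL' K hα0 hαK
    have h2 := Pool.Agent.E8helper92.PG.log_mem_K hL' K hγ0 hγK
    exact Pool.Agent.E8helper92.PG.excl_logK hL' hV K hα0 hγ0 hβ0 hα hγ hβ h1 h2 hαγ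
      (Pool.Agent.E8helper92.PG.sq_notMem hL' K h1 hβ0 hnear hdeg) hd

end Pool.Agent.Results.MP_dd0d16_nt.ConjugateLogsH92
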