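import Pool.Agent.E8helper92.PG.Min

/-!
# `p`-adic strong four exponentials: Galois descent

Let `𝓛` be the space of the linear combinations, with algebraic coefficients, of `1` and of values of
the Iwasawa logarithm at algebraic numbers. A counterexample to the conjecture is a singular `2 × 2`
matrix `M` with entries in `𝓛` and with rows and columns linearly independent over the algebraic
numbers. We show what the absolute Galois group of `ℚ_p` says about counterexamples: the row
quotient `t` and the column quotient `s` of `M` have the same conjugates which are Moebius transforms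
with algebraic coefficients (of `t`, respectively of `s`); after multiplication with invertible
matrices of algebraic numbers from both sides all the entries are in a finite extension `K` of `ℚ_p`
which is generated by each of the two quotients and which has the smallest degree possible for any
Moebius transform of `t` or of `s`; hence the conjecture is equivalent to the conjecture for such
matrices over such fields.

The proofs use the `p`-adic hyperplane theorem of the starting files `Pool.Agent.W254.PA`, Krasner's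
lemma and Galois descent.
-/

set_option autoImplicit false

namespace Pool.Agent.Results.MP_dd0d16_nt.GaloisDescentH92

open Module IntermediateField

/-- `L` is the Iwasawa `p`-adic logarithm on the algebraic closure of `ℚ_p`. -/
def IsIwasawaLog (p : ℕ) [Fact p.Prime] (L : PadicAlgCl p → PadicAlgCl p) : Prop :=
  (∀ x y : PadicAlgCl p, x ≠ 0 → y ≠ 0 → L (x * y) = L x + L y) ∧
  L ((p : ℕ) : PadicAlgCl p) = 0 ∧
  ∀ z : PadicAlgCl p, ‖z‖ < 1 →
    HasSum (fun n : ℕ => (-1 : PadicAlgCl p) ^ n * z ^ (n + 1) / ((n : PadicAlgCl p) + 1))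
      (L (1 + z))

/-- The algebraic numbers in the algebraic closure of `ℚ_p`. -/
noncomputable abbrev Qb (p : ℕ) [Fact p.Prime] : IntermediateField ℚ (PadicAlgCl p) :=
  algebraicClosure ℚ (PadicAlgCl p)

/-- The linear combinations with algebraic coefficients of `1` and of the values of `L` at nonzero
algebraic numbers. -/
noncomputable def LogForms (p : ℕ) [Fact p.Prime] (L : PadicAlgCl p → PadicAlgCl p) :
    Submodule (Qb p) (PadicAlgCl p) :=
  Submodule.span (Qb p) ({1} ∪ {z | ∃ α : PadicAlgCl p, α ≠ 0 ∧ IsAlgebraic ℚ α ∧ z = L α})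

/-- `M` is a counterexample to the `p`-adic strong four exponentials conjecture. -/
def Counterexample (p : ℕ) [Fact p.Prime] (L : PadicAlgCl p → PadicAlgCl p)
    (M : Matrix (Fin 2) (Fin 2) (PadicAlgCl p)) : Prop :=
  (∀ i j, M i j ∈ LogForms p L) ∧
  LinearIndependent (Qb p) (fun i : Fin 2 => fun j : Fin 2 => M i j) ∧
  LinearIndependent (Qb p) (fun j : Fin 2 => fun i : Fin 2 => M i j) ∧
  M.det = 0

/-- `y = (a x + b) / (c x + d)` with algebraic numbers `a, b, c, d`, `a d - b c ≠ 0`. -/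
def IsMoebiusTransform {p : ℕ} [Fact p.Prime] (x y : PadicAlgCl p) : Prop :=
  ∃ a b c d : Qb p, a * d - b * c ≠ 0 ∧
    y * ((c : PadicAlgCl p) * x + d) = (a : PadicAlgCl p) * x + b

/-- The image of a matrix of algebraic numbers in the matrices over the algebraic closure of
`ℚ_p`. -/
noncomputable def emb {p : ℕ} [Fact p.Prime] (A : Matrix (Fin 2) (Fin 2) (Qb p)) :
    Matrix (Fin 2) (Fin 2) (PadicAlgCl p) :=
  A.map (algebraMap (Qb p) (PadicAlgCl p))

/-- **Main result.**

1. For a counterexample `M` with row quotient `t = M 1 0 / M 0 0` and column quotient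
`s = M 0 1 / M 0 0` and for an automorphism `σ`, `σ t` is a Moebius transform of `t` if and only if
`σ s` is one of `s`.

2. By column operations over the algebraic numbers all entries of a counterexample can be moved to
`ℚ_p (t)`, by row operations to `ℚ_p (s)`.

3. By both one gets a counterexample `N` with entries in a finite extension `K` of `ℚ_p` which is
generated by each of the quotients of `N` and has minimal degree, i.e. `[K : ℚ_p] ≤ [ℚ_p (x) : ℚ_p]`
for all Moebius transforms `x` of `t` or of `s`.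

4. The conjecture is equivalent to the conjecture for such matrices. -/
theorem result (p : ℕ) [Fact p.Prime] (L : PadicAlgCl p → PadicAlgCl p) (hL : IsIwasawaLog p L) :
    (∀ M : Matrix (Fin 2) (Fin 2) (PadicAlgCl p), Counterexample p L M →
      ∀ σ : PadicAlgCl p ≃ₐ[ℚ_[p]] PadicAlgCl p,
        (IsMoebiusTransform (M 1 0 / M 0 0) (σ (M 1 0 / M 0 0)) ↔
          IsMoebiusTransform (M 0 1 / M 0 0) (σ (M 0 1 / M 0 0)))) ∧
    (∀ M : Matrix (Fin 2) (Fin 2) (PadicAlgCl p), Counterexample p L M →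
      (∃ B : Matrix (Fin 2) (Fin 2) (Qb p), B.det ≠ 0 ∧
        ∀ i j, (M * emb B) i j ∈ ℚ_[p]⟮M 1 0 / M 0 0⟯) ∧
      (∃ A : Matrix (Fin 2) (Fin 2) (Qb p), A.det ≠ 0 ∧
        ∀ i j, (emb A * M) i j ∈ ℚ_[p]⟮M 0 1 / M 0 0⟯)) ∧
    (∀ M : Matrix (Fin 2) (Fin 2) (PadicAlgCl p), Counterexample p L M →
      ∃ A B : Matrix (Fin 2) (Fin 2) (Qb p), A.det ≠ 0 ∧ B.det ≠ 0 ∧
        ∃ N : Matrix (Fin 2) (Fin 2) (PadicAlgCl p), N = emb A * M * emb B ∧
          Counterexample p L N ∧
          ∃ K : IntermediateField ℚ_[p] (PadicAlgCl p), FiniteDimensional ℚ_[p] K ∧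
            (∀ i j, N i j ∈ K) ∧
            K = ℚ_[p]⟮N 1 0 / N 0 0⟯ ∧ K = ℚ_[p]⟮N 0 1 / N 0 0⟯ ∧
            (∀ x, IsMoebiusTransform (M 1 0 / M 0 0) x →
              finrank ℚ_[p] K ≤ finrank ℚ_[p] ℚ_[p]⟮x⟯) ∧
            (∀ x, IsMoebiusTransform (M 0 1 / M 0 0) x →
              finrank ℚ_[p] K ≤ finrank ℚ_[p] ℚ_[p]⟮x⟯)) ∧
    ((∀ M : Matrix (Fin 2) (Fin 2) (PadicAlgCl p), ¬ Counterexample p L M) ↔
      ∀ K : IntermediateField ℚ_[p] (PadicAlgCl p), FiniteDimensional ℚ_[p] K →
        ∀ N : Matrix (Fin 2) (Fin 2) (PadicAlgCl p), (∀ i j, N i j ∈ K) →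
          K = ℚ_[p]⟮N 1 0 / N 0 0⟯ → K = ℚ_[p]⟮N 0 1 / N 0 0⟯ → ¬ Counterexample p L N) := by
  have hL' : Pool.Agent.W245.PB.IsIwasawaLog p L := ⟨hL.1, hL.2.1, hL.2.2⟩
  have hV : Pool.Agent.W254.PA.Hyp (LogForms p L) := Pool.Agent.W254.PA.hyp_padic hL'
  have hσ : ∀ σ : PadicAlgCl p ≃ₐ[ℚ_[p]] PadicAlgCl p, ∀ v ∈ LogForms p L,
      σ v ∈ LogForms p L := fun σ v hv => Pool.Agent.E8helper92.PG.logForms_galois hL' σ hv
  have hB : ∀ M : Matrix (Fin 2) (Fin 2) (PadicAlgCl p), Counterexample p L M →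
      ∃ B : Matrix (Fin 2) (Fin 2) (Qb p), B.det ≠ 0 ∧
        ∀ i j, (M * emb B) i j ∈ ℚ_[p]⟮M 1 0 / M 0 0⟯ := by
    intro M hM
    have hM' : Pool.Agent.E8helper92.PG.Cexa (LogForms p L) M := hM
    obtain ⟨B, h1, h2⟩ := Pool.Agent.E8helper92.PG.half hV hσ hM'.cx
    have h00 := hM'.m00
    have hd := hM'.2.2.2
    rw [Matrix.det_fin_two] at hd
    refine ⟨B, h1, ?_⟩
    have h3 : ∀ j, (M * emb B) 0 j =
        M 0 0 * ((B 0 j : PadicAlgCl p) + B 1 j * (M 0 1 / M 0 0)) := by
      intro j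
      rw [Matrix.mul_apply, Fin.sum_univ_two]
      change M 0 0 * (B 0 j : PadicAlgCl p) + M 0 1 * (B 1 j : PadicAlgCl p) = _
      field_simp
    have h4 : ∀ j, (M * emb B) 1 j = (M 1 0 / M 0 0) * (M * emb B) 0 j := by
      intro j
      rw [Matrix.mul_apply, Fin.sum_univ_two, Matrix.mul_apply, Fin.sum_univ_two]
      change M 1 0 * (B 0 j : PadicAlgCl p) + M 1 1 * (B 1 j : PadicAlgCl p) =
        (M 1 0 / M 0 0) * (M 0 0 * (B 0 j : PadicAlgCl p) + M 0 1 * (B 1 j : PadicAlgCl p))
      field_simp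
      linear_combination (B 1 j : PadicAlgCl p) * hd
    intro i j
    have h5 : (M * emb B) 0 j ∈ ℚ_[p]⟮M 1 0 / M 0 0⟯ := by
      rw [h3]
      exact h2 j
    fin_cases i
    · exact h5
    · change (M * emb B) 1 j ∈ _
      rw [h4]
      exact mul_mem (mem_adjoin_simple_self ℚ_[p] _) h5
  have hmin : ∀ M : Matrix (Fin 2) (Fin 2) (PadicAlgCl p), Counterexample p L M →
      ∃ A B : Matrix (Fin 2) (Fin 2) (Qb p), A.det ≠ 0 ∧ B.det ≠ 0 ∧
        ∃ N : Matrix (Fin 2) (Fin 2) (PadicAlgCl p), N = emb A * M * emb B ∧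
          Counterexample p L N ∧
          ∃ K : IntermediateField ℚ_[p] (PadicAlgCl p), FiniteDimensional ℚ_[p] K ∧
            (∀ i j, N i j ∈ K) ∧
            K = ℚ_[p]⟮N 1 0 / N 0 0⟯ ∧ K = ℚ_[p]⟮N 0 1 / N 0 0⟯ ∧
            (∀ x, IsMoebiusTransform (M 1 0 / M 0 0) x →
              finrank ℚ_[p] K ≤ finrank ℚ_[p] ℚ_[p]⟮x⟯) ∧
            (∀ x, IsMoebiusTransform (M 0 1 / M 0 0) x →
              finrank ℚ_[p] K ≤ finrank ℚ_[p] ℚ_[p]⟮x⟯) := by
    intro M hM
    exact Pool.Agent.E8helper92.PG.Cexa.minimal hV hσ hM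
  refine ⟨?_, ?_, hmin, ?_⟩
  · intro M hM σ
    have hM' : Pool.Agent.E8helper92.PG.Cexa (LogForms p L) M := hM
    exact ⟨fun h => hM'.cx.moeb hV σ (hσ σ) h, fun h => hM'.cx.symm.moeb hV σ (hσ σ) h⟩
  · intro M hM
    refine ⟨hB M hM, ?_⟩
    have hMt : Counterexample p L M.transpose := ⟨fun i j => hM.1 j i, hM.2.2.1, hM.2.1, by
      rw [Matrix.det_transpose]; exact hM.2.2.2⟩
    obtain ⟨B, h1, h2⟩ := hB _ hMt
    refine ⟨B.transpose, by rw [Matrix.det_transpose]; exact h1, ?_⟩
    intro i j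
    have h3 := h2 j i
    have h4 : (M.transpose * emb B) j i = (emb B.transpose * M) i j := by
      have h5 : emb B.transpose = (emb B).transpose := rfl
      rw [h5, ← Matrix.transpose_apply (M.transpose * emb B), Matrix.transpose_mul,
        Matrix.transpose_transpose]
    rw [← h4]
    exact h3
  · constructor
    · intro h K _ N _ _ _
      exact h N
    · intro h M hM
      obtain ⟨A, B, -, -, N, -, hN, K, h1, h2, h3, h4, -, -⟩ := hmin M hM
      exact h K h1 N h2 h3 h4 hN

end Pool.Agent.Results.MP_dd0d16_nt.GaloisDescentH92
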