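import Pool.Agent.E8helper48.RA.Blocks
import Pool.Agent.E8helper48.RA.Poly
import Pool.Agent.W254.PA.LogP

/-!
# `p`-adic strong four exponentials: random words of affine maps

Let `𝓛` be the space of the linear combinations, with algebraic coefficients, of `1` and of values of
the Iwasawa logarithm at algebraic numbers. The conjecture says that a singular `2 × 2` matrix
`(x i * y j)` with rows and columns linearly independent over the algebraic numbers has an entry
outside `𝓛`, for instance that the products of two transcendental elements of `𝓛` are outside `𝓛`.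

(A) Let `y ↦ a i * y + b i` be `q` affine maps of the algebraic closure of `ℚ_p`, `a i ≠ 0`, at least
one `a i` transcendental, two of the maps not commuting. For every `y` and every space `V` of
dimension `N` over the algebraic numbers all but `16 * 2 ^ N * exp (-c n ^ (1/3)) * q ^ n` of the words
of length `n` in these maps send `y` outside `𝓛 + V`. The constant `c > 0` depends only on `q`, not on
`p`, `y`, `V` and the maps.

(B) Random singular matrices. Let `x` be a column with `x r ≠ 0` and let the row `y` be moved by the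
maps `y ↦ a i * y + b i`, `b i` vectors, such that the maps of the coordinate `y s` satisfy the
conditions. The matrix `(x r * y s)` has all its entries in `𝓛` for at most
`16 * exp (-c n ^ (1/3)) * q ^ n` of the words; all others are no counterexamples.

(C) Random polynomials. Let `θ` be transcendental, `μ ≠ 0`, `s` and `y` arbitrary. Of the `2 ^ (D ^ 2)`
polynomials `P` in two variables with coefficients `0`, `1` and of degree `< D` in both variables at
most the proportion `3 * 2 ^ (N - D / 4)` satisfies `y + μ P(θ, s) ∈ 𝓛 + V`.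

The complex analogue is `MP_f55379_nt.RandomWordsH48`; the proof there is carried over to spaces with
the hyperplane property, and the `p`-adic hyperplane theorem of Waldschmidt and Roy of the starting
files (`Pool.Agent.W254.PA`) is used.
-/

set_option autoImplicit false

namespace Pool.Agent.Results.MP_dd0d16_nt.RandomWordsPadicH48

open Module
open Pool.Agent.E8helper48.RW (S ind S_ofFn ind_pos ind_neg c0 c0_pos)

/-- `L` is the Iwasawa `p`-adic logarithm on the algebraic closure of `ℚ_p`. -/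
def IsIwasawaLog (p : ℕ) [Fact p.Prime] (L : PadicAlgCl p → PadicAlgCl p) : Prop :=
  (∀ x y : PadicAlgCl p, x ≠ 0 → y ≠ 0 → L (x * y) = L x + L y) ∧
  L ((p : ℕ) : PadicAlgCl p) = 0 ∧
  ∀ z : PadicAlgCl p, ‖z‖ < 1 →
    HasSum (fun n : ℕ => (-1 : PadicAlgCl p) ^ n * z ^ (n + 1) / ((n : PadicAlgCl p) + 1))
      (L (1 + z))

/-- The algebraic numbers in the algebraic closure of `ℚ_p`. -/
noncomputable abbrev Qb (p : ℕ) [Fact p.Prime] : IntermediateField ℚ (PadicAlgCl p) :=
  algebraicClosure ℚ (PadicAlgCl p)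

/-- The linear combinations with algebraic coefficients of `1` and of the values of `L` at nonzero
algebraic numbers. -/
noncomputable def LogForms (p : ℕ) [Fact p.Prime] (L : PadicAlgCl p → PadicAlgCl p) :
    Submodule (Qb p) (PadicAlgCl p) :=
  Submodule.span (Qb p) ({1} ∪ {z | ∃ α : PadicAlgCl p, α ≠ 0 ∧ IsAlgebraic ℚ α ∧ z = L α})

/-- `M` is a counterexample to the `p`-adic strong four exponentials conjecture. -/
def Counterexample (p : ℕ) [Fact p.Prime] (L : PadicAlgCl p → PadicAlgCl p)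
    (M : Matrix (Fin 2) (Fin 2) (PadicAlgCl p)) : Prop :=
  (∀ i j, M i j ∈ LogForms p L) ∧
  LinearIndependent (Qb p) (fun i : Fin 2 => fun j : Fin 2 => M i j) ∧
  LinearIndependent (Qb p) (fun j : Fin 2 => fun i : Fin 2 => M i j) ∧
  M.det = 0

/-- The result of applying to `x` the operations `f (w 0)`, `f (w 1)`, …, `f (w (n - 1))` in turn. -/
def run {ι X : Type} (f : ι → X → X) {n : ℕ} (w : Fin n → ι) (x : X) : X :=
  (List.ofFn w).foldl (fun y i => f i y) x

theorem count_eq {ι : Type} [Fintype ι] (n : ℕ) (Q : List ι → Prop) :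
    (Nat.card {w : Fin n → ι // Q (List.ofFn w)} : ℝ) = S n (fun l => ind (Q l)) := by
  classical
  rw [S_ofFn, Nat.card_eq_fintype_card, Fintype.card_subtype, Finset.card_filter, Nat.cast_sum]
  refine Finset.sum_congr rfl fun w _ => ?_
  by_cases h : Q (List.ofFn w)
  · rw [if_pos h, ind_pos h, Nat.cast_one]
  · rw [if_neg h, ind_neg h, Nat.cast_zero]

/-- the constant -/
noncomputable def cq (q : ℕ) : ℝ := if 1 ≤ q then c0 ((q : ℝ) ^ 5) / 2 else 1

theorem cq_pos (q : ℕ) : 0 < cq q := by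
  unfold cq
  split_ifs with h
  · have h1 : (1 : ℝ) ≤ q := by exact_mod_cast h
    have := c0_pos (one_le_pow₀ (n := 5) h1)
    positivity
  · norm_num

theorem card_mono {α : Type} [Finite α] {P Q : α → Prop} (h : ∀ x, P x → Q x) :
    (Nat.card {x // P x} : ℝ) ≤ Nat.card {x // Q x} := by
  exact_mod_cast Nat.card_le_card_of_injective (fun x : {x // P x} => (⟨x.1, h x.1 x.2⟩ : {x // Q x}))
    fun x y hxy => Subtype.ext (by simpa using hxy)

theorem hyp {p : ℕ} [Fact p.Prime] {L : PadicAlgCl p → PadicAlgCl p} (hL : IsIwasawaLog p L) :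
    Pool.Agent.W254.PA.Hyp (LogForms p L) := by
  have hL' : Pool.Agent.W245.PB.IsIwasawaLog p L := ⟨hL.1, hL.2.1, hL.2.2⟩
  exact Pool.Agent.W254.PA.hyp_padic hL'

theorem partA {p : ℕ} [Fact p.Prime] {L : PadicAlgCl p → PadicAlgCl p} (hL : IsIwasawaLog p L)
    {ι : Type} [Fintype ι] (a b : ι → PadicAlgCl p) (ha : ∀ i, a i ≠ 0)
    (hk : ∃ k, Transcendental ℚ (a k)) (hc : ∃ i j, a i * b j + b i ≠ a j * b i + b j)
    (V : Submodule (Qb p) (PadicAlgCl p)) [FiniteDimensional (Qb p) V] (n : ℕ) (y : PadicAlgCl p) :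
    (Nat.card {w : Fin n → ι // run (fun i y => a i * y + b i) w y ∈ LogForms p L ⊔ V} : ℝ) ≤
      16 * 2 ^ finrank (Qb p) V * (Fintype.card ι : ℝ) ^ n *
        Real.exp (-(cq (Fintype.card ι) * (n : ℝ) ^ (1 / 3 : ℝ))) := by
  classical
  have hc' : ∃ i j, (a i - 1) * b j ≠ (a j - 1) * b i := by
    obtain ⟨i, j, hij⟩ := hc
    refine ⟨i, j, fun h => hij ?_⟩
    linear_combination h
  have h1 := Pool.Agent.E8helper48.RA.affine (hyp hL) a b ha hk hc' V n y
  have hq : 1 ≤ Fintype.card ι := Fintype.card_pos_iff.2 ⟨hk.choose⟩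
  unfold cq
  rw [if_pos hq]
  refine le_trans (le_of_eq ?_) h1
  rw [← count_eq]
  unfold run
  simp only [Pool.Agent.E8helper48.RA.val_foldl]

theorem run_coord {p : ℕ} [Fact p.Prime] {ι : Type} (a : ι → PadicAlgCl p)
    (b : ι → Fin 2 → PadicAlgCl p) (x : PadicAlgCl p) (s : Fin 2) (l : List ι) :
    ∀ y : Fin 2 → PadicAlgCl p,
    x * (l.foldl (fun y i => (fun (i : ι) (y : Fin 2 → PadicAlgCl p) => a i • y + b i) i y) y) s =
      l.foldl (fun y i => (fun i y => a i * y + x * b i s) i y) (x * y s) := by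
  induction l with
  | nil => intro y; rfl
  | cons i l ih =>
    intro y
    rw [List.foldl_cons, List.foldl_cons, ih]
    congr 1
    simp only [Pi.add_apply, Pi.smul_apply, smul_eq_mul]
    ring

theorem partB {p : ℕ} [Fact p.Prime] {L : PadicAlgCl p → PadicAlgCl p} (hL : IsIwasawaLog p L)
    {ι : Type} [Fintype ι] (a : ι → PadicAlgCl p) (b : ι → Fin 2 → PadicAlgCl p)
    (ha : ∀ i, a i ≠ 0) (hk : ∃ k, Transcendental ℚ (a k)) (s : Fin 2)
    (hc : ∃ i j, a i * b j s + b i s ≠ a j * b i s + b j s)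
    (x : Fin 2 → PadicAlgCl p) (r : Fin 2) (hx : x r ≠ 0) (y : Fin 2 → PadicAlgCl p) (n : ℕ) :
    (Nat.card {w : Fin n → ι //
      ∀ i j, x i * run (fun i y => a i • y + b i) w y j ∈ LogForms p L} : ℝ) ≤
      16 * (Fintype.card ι : ℝ) ^ n *
        Real.exp (-(cq (Fintype.card ι) * (n : ℝ) ^ (1 / 3 : ℝ))) := by
  have h1 := partA hL a (fun i => x r * b i s) ha hk (by
    obtain ⟨i, j, hij⟩ := hc
    refine ⟨i, j, fun h => hij ?_⟩
    have h2 : x r * (a i * b j s + b i s) = x r * (a j * b i s + b j s) := by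
      linear_combination h
    exact mul_left_cancel₀ hx h2) ⊥ n (x r * y s)
  rw [finrank_bot, pow_zero, mul_one] at h1
  refine le_trans (card_mono fun w hw => ?_) h1
  rw [sup_bot_eq]
  have h2 := hw r s
  unfold run at h2 ⊢
  rw [run_coord] at h2
  exact h2

/-- **Main result.** -/
theorem result : ∃ c : ℕ → ℝ, (∀ q, 0 < c q) ∧
    ∀ (p : ℕ) [Fact p.Prime] (L : PadicAlgCl p → PadicAlgCl p), IsIwasawaLog p L →
    -- (A) random words of affine maps
    (∀ (ι : Type) [Fintype ι] (a b : ι → PadicAlgCl p), (∀ i, a i ≠ 0) →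
      (∃ k, Transcendental ℚ (a k)) → (∃ i j, a i * b j + b i ≠ a j * b i + b j) →
      ∀ (V : Submodule (Qb p) (PadicAlgCl p)) [FiniteDimensional (Qb p) V] (n : ℕ)
        (y : PadicAlgCl p),
      (Nat.card {w : Fin n → ι // run (fun i y => a i * y + b i) w y ∈ LogForms p L ⊔ V} : ℝ) ≤
        16 * 2 ^ finrank (Qb p) V * (Fintype.card ι : ℝ) ^ n *
          Real.exp (-(c (Fintype.card ι) * (n : ℝ) ^ (1 / 3 : ℝ)))) ∧
    -- (B) random singular matrices
    (∀ (ι : Type) [Fintype ι] (a : ι → PadicAlgCl p) (b : ι → Fin 2 → PadicAlgCl p),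
      (∀ i, a i ≠ 0) → (∃ k, Transcendental ℚ (a k)) →
      (∃ s i j, a i * b j s + b i s ≠ a j * b i s + b j s) →
      ∀ (x : Fin 2 → PadicAlgCl p), x ≠ 0 → ∀ (y : Fin 2 → PadicAlgCl p) (n : ℕ),
      (Nat.card {w : Fin n → ι // Counterexample p L
          (Matrix.of fun i j => x i * run (fun i y => a i • y + b i) w y j)} : ℝ) ≤
        16 * (Fintype.card ι : ℝ) ^ n *
          Real.exp (-(c (Fintype.card ι) * (n : ℝ) ^ (1 / 3 : ℝ)))) ∧
    -- (C) random polynomials
    (∀ (θ s μ : PadicAlgCl p), Transcendental ℚ θ → μ ≠ 0 →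
      ∀ (V : Submodule (Qb p) (PadicAlgCl p)) [FiniteDimensional (Qb p) V] (D : ℕ), 1 ≤ D →
      ∀ y : PadicAlgCl p,
      (Nat.card {r : Finset (Fin D × Fin D) //
        y + μ * ∑ j ∈ r, θ ^ (j.1 : ℕ) * s ^ (j.2 : ℕ) ∈ LogForms p L ⊔ V} : ℝ) ≤
        3 * 2 ^ finrank (Qb p) V * 2 ^ (D ^ 2) * (2 : ℝ) ^ (-((D : ℝ) / 4))) := by
  refine ⟨cq, cq_pos, fun p _ L hL => ⟨?_, ?_, ?_⟩⟩
  · intro ι _ a b ha hk hc V _ n y
    exact partA hL a b ha hk hc V n y
  · intro ι _ a b ha hk hc x hx y n
    obtain ⟨s, i, j, hij⟩ := hc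
    obtain ⟨r, hr⟩ : ∃ r, x r ≠ 0 := by
      by_contra h
      push Not at h
      exact hx (funext h)
    refine le_trans (card_mono fun w hw => ?_) (partB hL a b ha hk s ⟨i, j, hij⟩ x r hr y n)
    exact fun i j => hw.1 i j
  · intro θ s μ hθ hμ V _ D hD y
    exact Pool.Agent.E8helper48.RA.poly (hyp hL) hθ hμ V D hD y

end Pool.Agent.Results.MP_dd0d16_nt.RandomWordsPadicH48
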